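import Mathlib

set_option autoImplicit false

namespace Pool.Agent.H86.BD

open Finset

/-- tuples of numbers below `M ^ J` in which the digit tuple `c` does not appear -/
def avoid (m M : ℕ) (c : Fin m → ℕ) (J : ℕ) : Finset (Fin m → ℕ) :=
  (Fintype.piFinset fun _ : Fin m => range (M ^ J)).filter
    fun q => ∀ j < J, ∃ i, (q i / M ^ j) % M ≠ c i

theorem card_avoid (m M : ℕ) (hM : 0 < M) (c : Fin m → ℕ) (hc : ∀ i, c i < M) (J : ℕ) :
    #(avoid m M c J) ≤ (M ^ m - 1) ^ J := by
  classical
  induction J with
  | zero =>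
    unfold avoid
    refine (card_filter_le _ _).trans ?_
    simp
  | succ J ih =>
    have h1 : #(avoid m M c (J + 1)) ≤
        #(((Fintype.piFinset fun _ : Fin m => range M).erase c) ×ˢ avoid m M c J) := by
      apply card_le_card_of_injOn (fun q => ((fun i => q i % M), (fun i => q i / M)))
      · intro q hq
        have hq' := mem_filter.1 (mem_coe.1 hq)
        rw [Fintype.mem_piFinset] at hq'
        obtain ⟨hq1, hq2⟩ := hq'
        rw [mem_coe, mem_product, mem_erase, Fintype.mem_piFinset]
        refine ⟨⟨?_, fun i => mem_range.2 (Nat.mod_lt _ hM)⟩, ?_⟩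
        · intro h
          obtain ⟨i, hi⟩ := hq2 0 (Nat.succ_pos J)
          rw [pow_zero, Nat.div_one] at hi
          exact hi (congrFun h i)
        · unfold avoid
          rw [mem_filter, Fintype.mem_piFinset]
          refine ⟨fun i => ?_, fun j hj => ?_⟩
          · rw [mem_range]
            apply Nat.div_lt_of_lt_mul
            have := mem_range.1 (hq1 i)
            rw [pow_succ, mul_comm] at this
            exact this
          · obtain ⟨i, hi⟩ := hq2 (j + 1) (by omega)
            refine ⟨i, ?_⟩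
            rw [Nat.div_div_eq_div_mul, ← pow_succ']
            exact hi
      · intro q _ q' _ h
        have h1 := (Prod.mk.injEq _ _ _ _).mp h
        funext i
        have h2 := congrFun h1.1 i
        have h3 := congrFun h1.2 i
        rw [← Nat.mod_add_div (q i) M, ← Nat.mod_add_div (q' i) M, h2, h3]
    refine h1.trans ?_
    rw [card_product, pow_succ, mul_comm]
    have h2 : c ∈ Fintype.piFinset fun _ : Fin m => range M := by
      rw [Fintype.mem_piFinset]
      exact fun i => mem_range.2 (hc i)
    rw [card_erase_of_mem h2, Fintype.card_piFinset_const, card_range]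
    exact Nat.mul_le_mul_right _ ih

theorem card_fiber (D K q : ℕ) (hK : 0 < K) (hD : 0 < D) :
    #((range D).filter fun x => K * x / D = q) ≤ D / K + 1 := by
  rcases ((range D).filter fun x => K * x / D = q).eq_empty_or_nonempty with h | h
  · rw [h]; simp
  · set A := (range D).filter fun x => K * x / D = q with hA
    have hsub : A ⊆ Ico (A.min' h) (A.min' h + (D / K + 1)) := by
      intro x hx
      rw [mem_Ico]
      refine ⟨A.min'_le x hx, ?_⟩
      have h1 := (mem_filter.1 hx).2
      have h2 := (mem_filter.1 (A.min'_mem h)).2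
      have h3 : K * x < (q + 1) * D := by
        rw [← Nat.div_lt_iff_lt_mul hD, h1]
        exact Nat.lt_succ_self q
      have h4 : q * D ≤ K * A.min' h := by
        rw [← h2]
        exact Nat.div_mul_le_self _ _
      have h5 : A.min' h ≤ x := A.min'_le x hx
      have h6 : (x - A.min' h) * K ≤ D := by
        rw [Nat.sub_mul]
        rw [mul_comm x K, mul_comm (A.min' h) K]
        have : K * x ≤ (q + 1) * D := h3.le
        rw [add_mul, one_mul] at this
        omega
      have h7 : x - A.min' h ≤ D / K := (Nat.le_div_iff_mul_le hK).2 h6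
      exact Nat.lt_succ_of_le (Nat.sub_le_iff_le_add'.1 h7)
    refine (card_le_card hsub).trans ?_
    rw [Nat.card_Ico, Nat.add_sub_cancel_left]

/-- the tuples `x < D` for which no `M ^ j`, `j < J`, gives the digit tuple `c` -/
def badSet (m M : ℕ) (c : Fin m → ℕ) (D J : ℕ) : Finset (Fin m → ℕ) :=
  (Fintype.piFinset fun _ : Fin m => range D).filter
    fun x => ∀ j < J, ∃ i, (M * ((M ^ j * x i) % D)) / D ≠ c i

theorem digit_eq (M D y : ℕ) (hM : 0 < M) (hD : 0 < D) : (M * (y % D)) / D = (M * y / D) % M := by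
  have h1 : M * y = M * (y % D) + D * (M * (y / D)) := by
    conv_lhs => rw [← Nat.mod_add_div y D]
    ring
  have h2 : M * y / D = M * (y % D) / D + M * (y / D) := by
    rw [h1, Nat.add_mul_div_left _ _ hD]
  rw [h2, Nat.add_mul_mod_self_left]
  symm
  apply Nat.mod_eq_of_lt
  rw [Nat.div_lt_iff_lt_mul hD]
  exact Nat.mul_lt_mul_of_pos_left (Nat.mod_lt _ hD) hM

theorem card_badSet (m M : ℕ) (hM : 0 < M) (c : Fin m → ℕ) (hc : ∀ i, c i < M) (D J : ℕ)
    (hD : 0 < D) (hJ : M ^ J ≤ D) :
    #(badSet m M c D J) * (M ^ J) ^ m ≤ (2 * D) ^ m * (M ^ m - 1) ^ J := by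
  classical
  have hK : 0 < M ^ J := Nat.pow_pos hM
  have hmaps : ∀ x ∈ badSet m M c D J, (fun i => M ^ J * x i / D) ∈ avoid m M c J := by
    intro x hx
    obtain ⟨hx1, hx2⟩ := mem_filter.1 hx
    rw [Fintype.mem_piFinset] at hx1
    unfold avoid
    rw [mem_filter, Fintype.mem_piFinset]
    refine ⟨fun i => ?_, fun j hj => ?_⟩
    · rw [mem_range, Nat.div_lt_iff_lt_mul hD]
      exact Nat.mul_lt_mul_of_pos_left (mem_range.1 (hx1 i)) hK
    · obtain ⟨i, hi⟩ := hx2 (J - 1 - j) (by omega)
      refine ⟨i, ?_⟩
      rw [digit_eq _ _ _ hM hD] at hi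
      have h1 : M ^ J * x i / D / M ^ j = M * (M ^ (J - 1 - j) * x i) / D := by
        have h2 : M ^ J = M ^ j * (M * M ^ (J - 1 - j)) := by
          rw [← pow_succ', ← pow_add]
          congr 1
          omega
        rw [Nat.div_div_eq_div_mul, h2, mul_comm D (M ^ j), mul_assoc,
          Nat.mul_div_mul_left _ _ (Nat.pow_pos hM), mul_assoc]
      rw [h1]
      exact hi
  have h1 : #(badSet m M c D J) ≤ (D / M ^ J + 1) ^ m * #(avoid m M c J) := by
    apply card_le_mul_card_image_of_maps_to hmaps
    intro q _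
    have h2 : (badSet m M c D J).filter (fun x => (fun i => M ^ J * x i / D) = q) ⊆
        Fintype.piFinset fun i : Fin m => (range D).filter fun x => M ^ J * x / D = q i := by
      intro x hx
      obtain ⟨hx1, hx2⟩ := mem_filter.1 hx
      have hx3 := (mem_filter.1 hx1).1
      rw [Fintype.mem_piFinset] at hx3 ⊢
      intro i
      rw [mem_filter]
      exact ⟨hx3 i, congrFun hx2 i⟩
    refine (card_le_card h2).trans ?_
    rw [Fintype.card_piFinset]
    refine (Finset.prod_le_pow_card _ _ (D / M ^ J + 1) (fun i _ => ?_)).trans ?_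
    · exact card_fiber D (M ^ J) (q i) hK hD
    · simp
  calc #(badSet m M c D J) * (M ^ J) ^ m
      ≤ ((D / M ^ J + 1) ^ m * #(avoid m M c J)) * (M ^ J) ^ m := Nat.mul_le_mul_right _ h1
    _ = ((D / M ^ J + 1) * M ^ J) ^ m * #(avoid m M c J) := by rw [mul_pow]; ring
    _ ≤ (2 * D) ^ m * (M ^ m - 1) ^ J := by
        apply Nat.mul_le_mul _ (card_avoid m M hM c hc J)
        apply Nat.pow_le_pow_left
        have := Nat.div_mul_le_self D (M ^ J)
        rw [add_mul, one_mul]
        omega

end Pool.Agent.H86.BD
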