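import Mathlib
import Pool.Agent.H86.BD.Digits
import Pool.Graph.R_pool_sql_team_seeded_35f281b4.Results.MP_3a77f1_co.AtMostThreeLetters

set_option autoImplicit false

namespace Pool.Agent.H86.BD

open Finset Pool.Agent.K7.H73.BD Pool.Agent.Results.MP_3a77f1_co.AtMostThreeLetters

/-- the instances with `n` letters and total demand `D` -/
def inst (n D : ℕ) : Set (Fin n → ℕ) := {d | (∀ i, 0 < d i) ∧ ∑ i, d i = D}

theorem inst_finite (n D : ℕ) : (inst n D).Finite := by
  apply Set.Finite.subset (Fintype.piFinset fun _ : Fin n => range (D + 1)).finite_toSet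
  intro d hd
  rw [mem_coe, Fintype.mem_piFinset]
  intro i
  rw [mem_range]
  have : d i ≤ ∑ i, d i := single_le_sum (f := d) (fun _ _ => Nat.zero_le _) (mem_univ i)
  rw [hd.2] at this
  omega

/-- there are many instances -/
theorem card_inst (m D : ℕ) (hm : 1 ≤ m) :
    (D / (m + 1)) ^ m ≤ (inst (m + 1) D).ncard := by
  classical
  rcases Nat.eq_zero_or_pos (D / (m + 1)) with h0 | h0
  · rw [h0, zero_pow (by omega)]
    exact Nat.zero_le _
  · have h1 : (Fintype.piFinset fun _ : Fin m => range (D / (m + 1))).card =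
        (D / (m + 1)) ^ m := by
      rw [Fintype.card_piFinset_const, card_range]
    rw [← h1, ← Set.ncard_coe_finset]
    have hle : ∀ y ∈ Fintype.piFinset fun _ : Fin m => range (D / (m + 1)),
        ∑ i, (y i + 1) + D / (m + 1) ≤ D := by
      intro y hy
      rw [Fintype.mem_piFinset] at hy
      have h2 : ∑ i, (y i + 1) ≤ ∑ _i : Fin m, D / (m + 1) := by
        apply sum_le_sum
        intro i _
        exact mem_range.1 (hy i)
      rw [sum_const, card_univ, Fintype.card_fin, smul_eq_mul] at h2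
      have h3 : (m + 1) * (D / (m + 1)) ≤ D := Nat.mul_div_le D (m + 1)
      rw [add_mul, one_mul] at h3
      omega
    apply Set.ncard_le_ncard_of_injOn (ht := inst_finite (m + 1) D)
      (fun y : Fin m → ℕ => (Fin.snoc (fun i => y i + 1) (D - ∑ i, (y i + 1)) : Fin (m + 1) → ℕ))
    · intro y hy
      have h2 := hle y (mem_coe.1 hy)
      refine ⟨?_, ?_⟩
      · intro i
        refine Fin.lastCases ?_ (fun i => ?_) i
        · rw [Fin.snoc_last]
          omega
        · rw [Fin.snoc_castSucc]
          omega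
      · rw [Fin.sum_univ_castSucc]
        simp only [Fin.snoc_castSucc, Fin.snoc_last]
        omega
    · intro y _ y' _ h
      funext i
      have h2 := congrFun h (Fin.castSucc i)
      simp only [Fin.snoc_castSucc] at h2
      omega

/-- If all fractional parts of `k d_i / D` are at least `θ` then `B^* ≥ θ`. -/
theorem le_Bstar_of_frac {n : ℕ} (d : Fin n → ℕ) (hn : 1 ≤ n) (hpos : ∀ i, 0 < d i) (θ : ℝ)
    (k : ℕ) (hk1 : 1 ≤ k) (hk : k ≤ ∑ i, d i)
    (h : ∀ i, θ * ((∑ i, d i : ℕ) : ℝ) ≤ ((k * d i % ∑ i, d i : ℕ) : ℝ)) : θ ≤ Bstar d := by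
  set D := ∑ i, d i with hDdef
  have hD : 0 < D := by omega
  apply le_Bstar d hn hpos
  intro s _
  by_contra hcon
  push Not at hcon
  have hD' : (0 : ℝ) < D := by exact_mod_cast hD
  have hocc : ∀ i, k * d i / D + 1 ≤ occ s i k := by
    intro i
    have h1 := (le_maxDev d s i k hk1 hk).trans_lt hcon
    have h2 := (abs_lt.1 h1).1
    have h3 : (k : ℝ) * ((d i : ℝ) / D) = (k * d i / D : ℕ) + ((k * d i % D : ℕ) : ℝ) / D := by
      have h4 : ((k * d i : ℕ) : ℝ) = D * (k * d i / D : ℕ) + (k * d i % D : ℕ) := by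
        exact_mod_cast (Nat.div_add_mod (k * d i) D).symm
      push_cast at h4
      field_simp
      linarith
    have h5 : θ ≤ ((k * d i % D : ℕ) : ℝ) / D := by
      rw [le_div_iff₀ hD']
      exact h i
    have h6 : ((k * d i / D : ℕ) : ℝ) < occ s i k := by
      rw [h3] at h2
      linarith
    have h7 : k * d i / D < occ s i k := by exact_mod_cast h6
    omega
  have hsum := sum_occ s k hk
  have h1 : ∑ i, (k * d i / D + 1) ≤ k :=
    (sum_le_sum fun i _ => hocc i).trans_eq hsum
  rw [sum_add_distrib, sum_const, card_univ, Fintype.card_fin, smul_eq_mul, mul_one] at h1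
  have h2 : D * ∑ i, (k * d i / D) + ∑ i, (k * d i % D) = k * D := by
    rw [mul_sum, ← sum_add_distrib]
    rw [sum_congr rfl fun i _ => Nat.div_add_mod (k * d i) D, ← mul_sum]
  have h3 : ∑ i, (k * d i % D) < n * D := by
    have : Nonempty (Fin n) := ⟨⟨0, hn⟩⟩
    calc ∑ i, (k * d i % D) < ∑ _i : Fin n, D :=
          sum_lt_sum_of_nonempty univ_nonempty fun i _ => Nat.mod_lt _ hD
      _ = n * D := by simp
  have h4 : D * (∑ i, (k * d i / D) + n) ≤ D * k := Nat.mul_le_mul_left _ h1
  rw [mul_add] at h4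
  nlinarith

/-- elements of `inst` with small `B^*` avoid a digit pattern -/
theorem small_sub_bad (m M c : ℕ) (hm : 1 ≤ m) (hM : 0 < M) (θ : ℝ) (hθ1 : θ < c / M)
    (hc1 : ((m : ℝ) - 1) * M < m * c) (hc2 : (c + 1) * (m + 1) ≤ m * M)
    (hθ2 : θ < m / (m + 1)) (D J : ℕ) (hD : 0 < D) (hJ : M ^ J ≤ D)
    (d : Fin (m + 1) → ℕ) (hd : d ∈ inst (m + 1) D) (hB : Bstar d ≤ θ) :
    (fun i : Fin m => d (Fin.castSucc i)) ∈ badSet m M (fun _ => c) D J := by
  obtain ⟨hpos, hsum⟩ := hd
  have hsum' : ∑ i : Fin m, d (Fin.castSucc i) + d (Fin.last m) = D := by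
    rw [← hsum, Fin.sum_univ_castSucc]
  unfold badSet
  rw [mem_filter, Fintype.mem_piFinset]
  refine ⟨fun i => ?_, ?_⟩
  · rw [mem_range]
    have h1 : d (Fin.castSucc i) ≤ ∑ i : Fin m, d (Fin.castSucc i) :=
      single_le_sum (f := fun i : Fin m => d (Fin.castSucc i)) (fun _ _ => Nat.zero_le _)
        (mem_univ i)
    have h2 := hpos (Fin.last m)
    omega
  intro j hj
  by_contra hcon
  push Not at hcon
  set k := M ^ j with hk
  have hk1 : 1 ≤ k := Nat.pow_pos hM
  have hkD : k ≤ D := (Nat.pow_le_pow_right hM hj.le).trans hJ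
  have hD' : (0 : ℝ) < D := by exact_mod_cast hD
  have hM' : (0 : ℝ) < M := by exact_mod_cast hM
  have hm' : (1 : ℝ) ≤ m := by exact_mod_cast hm
  have hlow : ∀ i : Fin m, c * D ≤ M * (k * d (Fin.castSucc i) % D) := by
    intro i
    have h1 := hcon i
    rw [← h1]
    exact Nat.div_mul_le_self _ _
  have hupp : ∀ i : Fin m, M * (k * d (Fin.castSucc i) % D) < (c + 1) * D := by
    intro i
    rw [← Nat.div_lt_iff_lt_mul hD, hcon i]
    exact Nat.lt_succ_self c
  set R := ∑ i : Fin m, (k * d (Fin.castSucc i) % D) with hR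
  have hR1 : m * (c * D) ≤ M * R := by
    rw [hR, mul_sum]
    calc m * (c * D) = ∑ _i : Fin m, c * D := by simp
      _ ≤ _ := sum_le_sum fun i _ => hlow i
  have hR2 : M * R < m * ((c + 1) * D) := by
    have : Nonempty (Fin m) := ⟨⟨0, hm⟩⟩
    rw [hR, mul_sum]
    calc _ < ∑ _i : Fin m, (c + 1) * D :=
          sum_lt_sum_of_nonempty univ_nonempty fun i _ => hupp i
      _ = m * ((c + 1) * D) := by simp
  set r := k * d (Fin.last m) % D with hr
  have hrD : r < D := Nat.mod_lt _ hD
  -- R + r is a multiple of D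
  have hdvd : D ∣ R + r := by
    have h1 : D * (∑ i : Fin m, (k * d (Fin.castSucc i) / D) + k * d (Fin.last m) / D) + (R + r) =
        k * D := by
      have h2 : D * ∑ i : Fin m, (k * d (Fin.castSucc i) / D) + R =
          k * ∑ i : Fin m, d (Fin.castSucc i) := by
        rw [mul_sum, hR, ← sum_add_distrib, mul_sum]
        exact sum_congr rfl fun i _ => Nat.div_add_mod _ _
      have h3 : D * (k * d (Fin.last m) / D) + r = k * d (Fin.last m) := Nat.div_add_mod _ _
      calc _ = (D * ∑ i : Fin m, (k * d (Fin.castSucc i) / D) + R) +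
            (D * (k * d (Fin.last m) / D) + r) := by ring
        _ = k * (∑ i : Fin m, d (Fin.castSucc i) + d (Fin.last m)) := by rw [h2, h3]; ring
        _ = k * D := by rw [hsum']
    have h2 : D ∣ D * (∑ i : Fin m, (k * d (Fin.castSucc i) / D) + k * d (Fin.last m) / D) +
        (R + r) := by
      rw [h1]
      exact Dvd.intro_left k rfl
    exact (Nat.dvd_add_right (Dvd.intro _ rfl)).1 h2
  obtain ⟨t, ht⟩ := hdvd
  have ht1 : t = m := by
    -- (m-1) D < R  and R + r < (m+1) D
    have h1 : ((m : ℝ) - 1) * D < R := by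
      have h2 : (m : ℝ) * (c * D) ≤ M * R := by exact_mod_cast hR1
      have h3 : ((m : ℝ) - 1) * M * D < m * c * D := mul_lt_mul_of_pos_right hc1 hD'
      have h4 : M * (((m : ℝ) - 1) * D) < M * R := by linarith
      exact lt_of_mul_lt_mul_left h4 hM'.le
    have h5 : R < m * D := by
      have h6 : (c + 1) * m ≤ m * M := by
        refine le_trans (Nat.mul_le_mul_left _ (by omega)) hc2
      have h7 : M * R < M * (m * D) := by
        calc M * R < m * ((c + 1) * D) := hR2
          _ = ((c + 1) * m) * D := by ring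
          _ ≤ (m * M) * D := Nat.mul_le_mul_right _ h6
          _ = M * (m * D) := by ring
      exact lt_of_mul_lt_mul_left h7 (Nat.zero_le _)
    have h8 : R + r < (m + 1) * D := by
      rw [add_mul, one_mul]
      omega
    rw [ht, mul_comm] at h8
    have h9 : t < m + 1 := lt_of_mul_lt_mul_right h8 (Nat.zero_le _)
    have h10 : ((m : ℝ) - 1) * D < D * t := by
      have : ((R + r : ℕ) : ℝ) = D * t := by exact_mod_cast ht
      rw [← this]
      push_cast
      have : (0 : ℝ) ≤ r := by positivity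
      linarith
    rw [mul_comm] at h10
    have h11 : (m : ℝ) - 1 < t := lt_of_mul_lt_mul_left h10 hD'.le
    have h12 : (m : ℝ) < (t + 1 : ℕ) := by push_cast; linarith
    have h13 : m < t + 1 := by exact_mod_cast h12
    omega
  rw [ht1] at ht
  -- the last fractional part
  have hr1 : (m : ℝ) / (m + 1) * D ≤ r := by
    have h1 : (m + 1) * (M * R) ≤ m * m * M * D := by
      calc (m + 1) * (M * R) ≤ (m + 1) * (m * ((c + 1) * D)) := Nat.mul_le_mul_left _ hR2.le
        _ = ((c + 1) * (m + 1)) * (m * D) := by ring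
        _ ≤ (m * M) * (m * D) := Nat.mul_le_mul_right _ hc2
        _ = m * m * M * D := by ring
    have h2 : (m + 1) * R ≤ m * m * D := by
      have : M * ((m + 1) * R) ≤ M * (m * m * D) := by
        calc M * ((m + 1) * R) = (m + 1) * (M * R) := by ring
          _ ≤ m * m * M * D := h1
          _ = M * (m * m * D) := by ring
      exact Nat.le_of_mul_le_mul_left this hM
    have h3 : ((m : ℝ) + 1) * R ≤ m * m * D := by exact_mod_cast h2
    have h4 : (R : ℝ) + r = D * m := by exact_mod_cast ht
    have h5 : (0 : ℝ) < (m : ℝ) + 1 := by positivity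
    rw [div_mul_eq_mul_div, div_le_iff₀ h5]
    have h6 : (r : ℝ) * (m + 1) = D * m * (m + 1) - (m + 1) * R := by
      have : (r : ℝ) = D * m - R := by linarith
      rw [this]; ring
    rw [h6]
    nlinarith
  have hθ' : min ((c : ℝ) / M) (m / (m + 1)) ≤ Bstar d := by
    apply le_Bstar_of_frac d (by omega) hpos _ k hk1 (by rw [hsum]; exact hkD)
    intro i
    rw [hsum]
    refine Fin.lastCases ?_ (fun i => ?_) i
    · refine le_trans ?_ hr1
      exact mul_le_mul_of_nonneg_right (min_le_right _ _) hD'.le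
    · have h1 : (c : ℝ) * D ≤ M * ((k * d (Fin.castSucc i) % D : ℕ) : ℝ) := by
        exact_mod_cast hlow i
      calc min ((c : ℝ) / M) (m / (m + 1)) * D ≤ c / M * D :=
            mul_le_mul_of_nonneg_right (min_le_left _ _) hD'.le
        _ ≤ _ := by
            rw [div_mul_eq_mul_div, div_le_iff₀ hM']
            linarith
  have := lt_min hθ1 hθ2
  linarith

end Pool.Agent.H86.BD
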