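import Mathlib
import Pool.Graph.R_pool_sql_team_seeded_35f281b4.Results.MP_3a77f1_co.AtMostThreeLetters

set_option autoImplicit false

namespace Pool.Agent.H86.BD

open Finset Pool.Agent.K7.H73.BD Pool.Agent.Results.MP_3a77f1_co.AtMostThreeLetters

/-- a word with prescribed counting functions -/
theorem exists_word (n D : ℕ) (x : Fin n → ℕ → ℕ) (h0 : ∀ i, x i 0 = 0)
    (hm : ∀ i k, k < D → x i k ≤ x i (k + 1)) (hs : ∀ k, k ≤ D → ∑ i, x i k = k) :
    ∃ s : Fin D → Fin n, ∀ i k, k ≤ D → occ s i k = x i k := by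
  classical
  have hex : ∀ t : Fin D, ∃ i : Fin n, x i ((t : ℕ) + 1) = x i t + 1 ∧
      ∀ j, j ≠ i → x j ((t : ℕ) + 1) = x j t := by
    intro t
    have h1 := hs t t.2.le
    have h2 := hs (t + 1) t.2
    have h3 : ∃ i : Fin n, x i t < x i ((t : ℕ) + 1) := by
      by_contra hcon
      push Not at hcon
      have : ∑ i, x i ((t : ℕ) + 1) ≤ ∑ i, x i t := sum_le_sum fun i _ => hcon i
      omega
    obtain ⟨i, hi⟩ := h3
    have h4 : ∑ j ∈ univ.erase i, x j ((t : ℕ) + 1) + x i ((t : ℕ) + 1) = (t : ℕ) + 1 := by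
      rw [sum_erase_add _ _ (mem_univ i)]
      exact h2
    have h5 : ∑ j ∈ univ.erase i, x j t + x i t = (t : ℕ) := by
      rw [sum_erase_add _ _ (mem_univ i)]
      exact h1
    have h6 : ∑ j ∈ univ.erase i, x j t ≤ ∑ j ∈ univ.erase i, x j ((t : ℕ) + 1) :=
      sum_le_sum fun j _ => hm j t t.2
    have h7 : ∑ j ∈ univ.erase i, x j t = ∑ j ∈ univ.erase i, x j ((t : ℕ) + 1) := by omega
    refine ⟨i, by omega, ?_⟩
    intro j hj
    have h8 := (sum_eq_sum_iff_of_le (fun j _ => hm j t t.2)).1 h7 j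
      (mem_erase.2 ⟨hj, mem_univ j⟩)
    exact h8.symm
  choose s hs1 hs2 using hex
  refine ⟨s, ?_⟩
  intro i k
  induction k with
  | zero =>
    intro _
    rw [h0]
    simp [occ]
  | succ k ih =>
    intro hk
    have ih' := ih (by omega)
    have hkD : k < D := by omega
    have h1 : (univ.filter (fun t : Fin D => (t : ℕ) < k + 1 ∧ s t = i)) =
        (univ.filter (fun t : Fin D => (t : ℕ) < k ∧ s t = i)) ∪
        (if s ⟨k, hkD⟩ = i then {(⟨k, hkD⟩ : Fin D)} else ∅) := by
      ext t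
      split_ifs with hi
      · simp only [mem_filter, mem_univ, true_and, mem_union, mem_singleton]
        constructor
        · rintro ⟨h2, h3⟩
          rcases Nat.lt_succ_iff_lt_or_eq.1 h2 with h4 | h4
          · exact Or.inl ⟨h4, h3⟩
          · exact Or.inr (Fin.ext h4)
        · rintro (⟨h2, h3⟩ | h2)
          · exact ⟨by omega, h3⟩
          · subst h2
            exact ⟨Nat.lt_succ_self k, hi⟩
      · simp only [mem_filter, mem_univ, true_and, mem_union, notMem_empty, or_false]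
        constructor
        · rintro ⟨h2, h3⟩
          rcases Nat.lt_succ_iff_lt_or_eq.1 h2 with h4 | h4
          · exact ⟨h4, h3⟩
          · exfalso
            apply hi
            have : t = ⟨k, hkD⟩ := Fin.ext h4
            rw [← this]
            exact h3
        · rintro ⟨h2, h3⟩
          exact ⟨by omega, h3⟩
    have h2 : occ s i (k + 1) = occ s i k + (if s ⟨k, hkD⟩ = i then 1 else 0) := by
      unfold occ
      rw [h1, card_union_of_disjoint]
      · split_ifs <;> simp
      · rw [disjoint_left]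
        intro t ht ht2
        have h3 := (mem_filter.1 ht).2.1
        split_ifs at ht2 with h4
        · rw [mem_singleton] at ht2
          rw [ht2] at h3
          exact lt_irrefl _ h3
        · exact absurd ht2 (notMem_empty _)
    rw [h2, ih']
    split_ifs with hi
    · rw [← hi]
      exact (hs1 ⟨k, hkD⟩).symm
    · rw [add_zero]
      exact (hs2 ⟨k, hkD⟩ i (fun h => hi h.symm)).symm

/-- counting function of the letter with the demand `2 ^ (m - 1 - v)` in the ruler sequence with
the period `2 ^ m - 1` -/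
def zc (m v y : ℕ) : ℕ :=
  (y % (2 ^ m - 1)) / 2 ^ v - (y % (2 ^ m - 1)) / 2 ^ (v + 1) + 2 ^ (m - 1 - v) * (y / (2 ^ m - 1))

theorem half_eq (r v : ℕ) : r / 2 ^ v - r / 2 ^ (v + 1) = (r + 2 ^ v) / 2 ^ (v + 1) := by
  have hp : 0 < 2 ^ v := by positivity
  have h1 : r / 2 ^ (v + 1) = (r / 2 ^ v) / 2 := by rw [pow_succ, Nat.div_div_eq_div_mul]
  have h2 : (r + 2 ^ v) / 2 ^ (v + 1) = (r / 2 ^ v + 1) / 2 := by
    rw [pow_succ, ← Nat.div_div_eq_div_mul, Nat.add_div_right _ hp]
  rw [h1, h2]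
  generalize r / 2 ^ v = t
  omega

theorem zc_mono (m v y : ℕ) (hm : 1 ≤ m) (hv : v < m) : zc m v y ≤ zc m v (y + 1) := by
  unfold zc
  set N := 2 ^ m - 1 with hN
  have hN1 : 1 ≤ N := by
    have : 2 ^ 1 ≤ 2 ^ m := Nat.pow_le_pow_right (by norm_num) hm
    omega
  rw [half_eq, half_eq]
  by_cases hlt : y % N + 1 < N
  · have h1 : (y + 1) % N = y % N + 1 := by
      have : 1 % N = 1 := Nat.mod_eq_of_lt (by omega)
      rw [Nat.add_mod, this, Nat.mod_eq_of_lt hlt]
    have h2 : (y + 1) / N = y / N := by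
      have h3 := Nat.div_add_mod (y + 1) N
      have h4 := Nat.div_add_mod y N
      rw [h1] at h3
      have : N * ((y + 1) / N) = N * (y / N) := by omega
      exact Nat.eq_of_mul_eq_mul_left hN1 this
    rw [h1, h2]
    apply Nat.add_le_add_right
    apply Nat.div_le_div_right
    omega
  · have h0 := Nat.mod_lt y hN1
    have hy : y % N = N - 1 := by omega
    have h4 := Nat.div_add_mod y N
    have h5 : y + 1 = N * (y / N + 1) := by
      rw [mul_add, mul_one]
      omega
    have h1 : (y + 1) % N = 0 := by rw [h5, Nat.mul_mod_right]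
    have h2 : (y + 1) / N = y / N + 1 := by rw [h5, Nat.mul_div_cancel_left _ hN1]
    rw [h1, h2, hy, mul_add, mul_one]
    have h6 : (N - 1 + 2 ^ v) / 2 ^ (v + 1) < 2 ^ (m - 1 - v) + 1 := by
      apply Nat.div_lt_of_lt_mul
      have h7 : 2 ^ (v + 1) * 2 ^ (m - 1 - v) = 2 ^ m := by
        rw [← pow_add]
        congr 1
        omega
      have h8 : 2 ^ (v + 1) = 2 * 2 ^ v := by rw [pow_succ]; ring
      have h9 : 0 < 2 ^ v := by positivity
      rw [mul_add, h7, mul_one, h8]
      omega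
    have h10 := Nat.lt_succ_iff.1 h6
    have h11 : (0 + 2 ^ v) / 2 ^ (v + 1) = 0 := by
      apply Nat.div_eq_of_lt
      have h8 : 2 ^ (v + 1) = 2 * 2 ^ v := by rw [pow_succ]; ring
      have h9 : 0 < 2 ^ v := by positivity
      omega
    rw [h11]
    generalize 2 ^ (m - 1 - v) * (y / N) = w
    generalize (N - 1 + 2 ^ v) / 2 ^ (v + 1) = u at h10 ⊢
    omega

theorem zc_dev (m v y : ℕ) (hm : 1 ≤ m) (hv : v < m) :
    |((2 : ℤ) * (2 ^ m - 1 : ℕ) * zc m v y - 2 * (y * (2 ^ (m - 1 - v) : ℕ)))| ≤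
      ((2 ^ m - 1 : ℕ) : ℤ) - 1 := by
  set N := 2 ^ m - 1 with hN
  have h2m : 2 ^ 1 ≤ 2 ^ m := Nat.pow_le_pow_right (by norm_num) hm
  have hN1 : 1 ≤ N := by omega
  set P := 2 ^ (m - 1 - v) with hP
  set h := 2 ^ v with hh
  have hPQ : P * (2 * h) = N + 1 := by
    have : P * (2 * h) = 2 ^ m := by
      rw [hP, hh, ← pow_succ', ← pow_add]
      congr 1
      omega
    omega
  have hh0 : 0 < h := by positivity
  have hP0 : 0 < P := by positivity
  have hy := Nat.div_add_mod y N
  have hr := Nat.mod_lt y hN1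
  set q := y / N with hq
  set r := y % N with hr'
  have hz : zc m v y = (r + h) / (2 * h) + P * q := by
    unfold zc
    rw [half_eq, pow_succ, mul_comm (2 ^ v) 2]
  set a := r / (2 * h) with ha
  set s := r % (2 * h) with hs
  have hras : 2 * h * a + s = r := Nat.div_add_mod r (2 * h)
  have hsl : s < 2 * h := Nat.mod_lt r (show 0 < 2 * h by omega)
  have haP : a < P := by
    rw [ha, Nat.div_lt_iff_lt_mul (by omega), hPQ]
    omega
  have hNz : (N : ℤ) = P * (2 * h) - 1 := by
    have : (P : ℤ) * (2 * h) = N + 1 := by exact_mod_cast hPQ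
    linarith
  have hyz : (y : ℤ) = N * q + r := by exact_mod_cast hy.symm
  have hrz : (r : ℤ) = 2 * h * a + s := by exact_mod_cast hras.symm
  have haz : (a : ℤ) + 1 ≤ P := by exact_mod_cast haP
  have hsz : (s : ℤ) + 1 ≤ 2 * h := by exact_mod_cast hsl
  have ha0 : (0 : ℤ) ≤ a := by positivity
  have hs0 : (0 : ℤ) ≤ s := by positivity
  have hPz : (1 : ℤ) ≤ P := by exact_mod_cast hP0
  have hhz : (1 : ℤ) ≤ h := by exact_mod_cast hh0
  rw [hz]
  by_cases hcase : s < h
  · have hc : (r + h) / (2 * h) = a := by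
      have : r + h = (s + h) + 2 * h * a := by
        rw [← hras]; ring
      rw [this, Nat.add_mul_div_left _ _ (by omega), Nat.div_eq_of_lt (by omega), zero_add]
    rw [hc]
    push_cast
    rw [hyz, hrz]
    have e : 2 * (N : ℤ) * (a + P * q) - 2 * ((N * q + (2 * h * a + s)) * P) =
        2 * a * (N - P * (2 * h)) - 2 * P * s := by ring
    rw [e, hNz, abs_le]
    have hsc : (s : ℤ) + 1 ≤ h := by exact_mod_cast hcase
    have k1 : 0 ≤ (P : ℤ) * (h - s - 1) := mul_nonneg (by linarith) (by linarith)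
    have k2 : 0 ≤ (P : ℤ) * s := mul_nonneg (by linarith) hs0
    have k3 : 0 ≤ (P : ℤ) * (h - 1) := mul_nonneg (by linarith) (by linarith)
    constructor <;> linarith
  · push Not at hcase
    have hc : (r + h) / (2 * h) = a + 1 := by
      have : r + h = (s - h) + 2 * h * (a + 1) := by
        rw [← hras]
        obtain ⟨z, hz⟩ := Nat.exists_eq_add_of_le hcase
        rw [hz, Nat.add_sub_cancel_left]
        ring
      rw [this, Nat.add_mul_div_left _ _ (by omega), Nat.div_eq_of_lt (by omega), zero_add]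
    rw [hc]
    push_cast
    rw [hyz, hrz]
    have e : 2 * (N : ℤ) * (a + 1 + P * q) - 2 * ((N * q + (2 * h * a + s)) * P) =
        2 * a * (N - P * (2 * h)) + 2 * N - 2 * P * s := by ring
    rw [e, hNz, abs_le]
    have hsc : (h : ℤ) ≤ s := by exact_mod_cast hcase
    have k1 : 0 ≤ (P : ℤ) * (s - h) := mul_nonneg (by linarith) (by linarith)
    have k2 : 0 ≤ (P : ℤ) * (2 * h - s - 1) := mul_nonneg (by linarith) (by linarith)
    have k3 : 0 ≤ (P : ℤ) * (h - 1) := mul_nonneg (by linarith) (by linarith)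
    constructor <;> linarith

theorem sum_halves (r m : ℕ) :
    ∑ v ∈ range m, (r / 2 ^ v - r / 2 ^ (v + 1)) + r / 2 ^ m = r := by
  induction m with
  | zero => simp
  | succ m ih =>
    rw [sum_range_succ]
    have h1 : r / 2 ^ (m + 1) ≤ r / 2 ^ m := by
      rw [pow_succ, ← Nat.div_div_eq_div_mul]
      exact Nat.div_le_self _ _
    omega

theorem sum_zc (m y : ℕ) (hm : 1 ≤ m) :
    ∑ i : Fin m, zc m (m - 1 - i) y = y := by
  set N := 2 ^ m - 1 with hN
  have h2m : 2 ^ 1 ≤ 2 ^ m := Nat.pow_le_pow_right (by norm_num) hm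
  have hN1 : 1 ≤ N := by omega
  have h1 : ∑ i : Fin m, zc m (m - 1 - i) y = ∑ v ∈ range m, zc m v y := by
    rw [Fin.sum_univ_eq_sum_range (fun i => zc m (m - 1 - i) y) m]
    exact sum_range_reflect (fun v => zc m v y) m
  rw [h1]
  unfold zc
  rw [← hN, sum_add_distrib]
  have h2 := sum_halves (y % N) m
  have h3 : y % N / 2 ^ m = 0 := by
    apply Nat.div_eq_of_lt
    have := Nat.mod_lt y hN1
    omega
  have h4 : ∑ v ∈ range m, 2 ^ (m - 1 - v) * (y / N) = N * (y / N) := by
    rw [← sum_mul]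
    congr 1
    rw [sum_range_reflect (fun v => 2 ^ v) m, hN]
    have := Nat.geomSum_eq (m := 2) (by norm_num) m
    simpa using this
  rw [h4]
  have h5 := Nat.div_add_mod y N
  omega

end Pool.Agent.H86.BD
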