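import Mathlib
import Pool.Agent.H86.BD.Count
import Pool.Graph.R_pool_sql_team_seeded_35f281b4.Results.MP_3a77f1_co.FourLettersClosed

set_option autoImplicit false

namespace Pool.Agent.H86.BD

open Finset Pool.Agent.K7.H73.BD Pool.Agent.Results.MP_3a77f1_co.AtMostThreeLetters
open Pool.Agent.Results.MP_3a77f1_co.FourLettersClosed

/-- a violated window -/
theorem window_bad (d : Fin 4 → ℕ) (hpos : ∀ i, 0 < d i) (D : ℕ) (hsum : ∑ i, d i = D)
    (k0 : Fin 4) (l k : ℕ) (hk : 1 ≤ k) (hkl : k + l ≤ D)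
    (hz : ∑ i ∈ univ.erase k0, (l * d i) / D + 2 = l)
    (h1 : ∀ i, i ≠ k0 → 4 * (k * d i % D) ≤ D)
    (h2 : ∀ i, i ≠ k0 → 3 * D ≤ 4 * ((k * d i) % D + (l * d i) % D)) : 3 / 4 ≤ Bstar d := by
  subst hsum
  set D := ∑ i, d i with hDdef
  have hD : 0 < D := by omega
  apply le_Bstar d (by norm_num) hpos
  intro s _
  by_contra hcon
  push Not at hcon
  have hD' : (0 : ℝ) < D := by exact_mod_cast hD
  have hfrac : ∀ (i : Fin 4) (a : ℕ), (a : ℝ) * ((d i : ℝ) / D) =
      (a * d i / D : ℕ) + ((a * d i % D : ℕ) : ℝ) / D := by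
    intro i a
    have h4 : ((a * d i : ℕ) : ℝ) = D * (a * d i / D : ℕ) + (a * d i % D : ℕ) := by
      exact_mod_cast (Nat.div_add_mod (a * d i) D).symm
    push_cast at h4
    field_simp
    linarith
  have hocc1 : ∀ i, i ≠ k0 → occ s i k ≤ k * d i / D := by
    intro i hi
    have h3 := (le_maxDev d s i k hk (by omega)).trans_lt hcon
    have h4 := (abs_lt.1 h3).2
    rw [hfrac] at h4
    have h5 : ((k * d i % D : ℕ) : ℝ) / D ≤ 1 / 4 := by
      rw [div_le_div_iff₀ hD' (by norm_num)]
      have : ((4 * (k * d i % D) : ℕ) : ℝ) ≤ D := by exact_mod_cast h1 i hi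
      push_cast at this
      push_cast
      linarith
    have h6 : (occ s i k : ℝ) < (k * d i / D : ℕ) + 1 := by linarith
    have h7 : occ s i k < k * d i / D + 1 := by exact_mod_cast h6
    omega
  have hocc2 : ∀ i, i ≠ k0 → k * d i / D + l * d i / D + 1 ≤ occ s i (k + l) := by
    intro i hi
    have h3 := (le_maxDev d s i (k + l) (by omega) hkl).trans_lt hcon
    have h4 := (abs_lt.1 h3).1
    have h8 : ((k + l : ℕ) : ℝ) * ((d i : ℝ) / D) =
        (k : ℝ) * ((d i : ℝ) / D) + (l : ℝ) * ((d i : ℝ) / D) := by push_cast; ring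
    rw [h8, hfrac, hfrac] at h4
    have h5 : (3 : ℝ) / 4 ≤ ((k * d i % D : ℕ) : ℝ) / D + ((l * d i % D : ℕ) : ℝ) / D := by
      rw [← add_div, div_le_div_iff₀ (by norm_num) hD']
      have : ((3 * D : ℕ) : ℝ) ≤ ((4 * ((k * d i) % D + (l * d i) % D) : ℕ) : ℝ) := by
        exact_mod_cast h2 i hi
      push_cast at this
      push_cast
      linarith
    have h6 : ((k * d i / D + l * d i / D : ℕ) : ℝ) < occ s i (k + l) := by
      push_cast
      push_cast at h4 h5
      linarith
    have h7 : k * d i / D + l * d i / D < occ s i (k + l) := by exact_mod_cast h6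
    omega
  have hs1 := sum_occ s k (by omega)
  have hs2 := sum_occ s (k + l) hkl
  rw [← add_sum_erase _ _ (mem_univ k0)] at hs1 hs2
  have hmono : occ s k0 k ≤ occ s k0 (k + l) := occ_mono s k0 (by omega)
  have h3 : ∑ i ∈ univ.erase k0, occ s i k + ∑ i ∈ univ.erase k0, (l * d i / D) + 3 ≤
      ∑ i ∈ univ.erase k0, occ s i (k + l) := by
    have hc : #(univ.erase k0) = 3 := by
      rw [card_erase_of_mem (mem_univ k0), card_univ, Fintype.card_fin]
    calc ∑ i ∈ univ.erase k0, occ s i k + ∑ i ∈ univ.erase k0, (l * d i / D) + 3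
        = ∑ i ∈ univ.erase k0, (occ s i k + l * d i / D + 1) := by
          rw [sum_add_distrib, sum_add_distrib, sum_const, hc]
          simp
      _ ≤ ∑ i ∈ univ.erase k0, occ s i (k + l) := by
          refine sum_le_sum fun i hi => ?_
          have hi' := ne_of_mem_erase hi
          have := hocc1 i hi'
          have := hocc2 i hi'
          omega
  omega

theorem card_V (D M l : ℕ) (hD : 0 < D) (hM : 0 < M) (hl : 0 < l) :
    #((range D).filter fun v => D ≤ 2 * (l * v % D) ∧ 2 * M * (l * v % D) < M * D + 4 * D) ≤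
      (2 * D / (M * l) + 1) * l := by
  classical
  set V := (range D).filter fun v => D ≤ 2 * (l * v % D) ∧ 2 * M * (l * v % D) < M * D + 4 * D
    with hV
  have hmaps : ∀ v ∈ V, l * v / D ∈ range l := by
    intro v hv
    have h1 := mem_range.1 (mem_filter.1 hv).1
    rw [mem_range, Nat.div_lt_iff_lt_mul hD]
    exact Nat.mul_lt_mul_of_pos_left h1 hl
  have h := card_le_mul_card_image_of_maps_to hmaps (2 * D / (M * l) + 1) (by
    intro t _
    rcases (V.filter fun v => l * v / D = t).eq_empty_or_nonempty with h | h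
    · rw [h]; simp
    · set A := V.filter fun v => l * v / D = t with hA
      have hsub : A ⊆ Ico (A.min' h) (A.min' h + (2 * D / (M * l) + 1)) := by
        intro x hx
        rw [mem_Ico]
        refine ⟨A.min'_le x hx, ?_⟩
        obtain ⟨hx1, hx2⟩ := mem_filter.1 hx
        obtain ⟨hy1, hy2⟩ := mem_filter.1 (A.min'_mem h)
        have hx3 := (mem_filter.1 hx1).2.2
        have hy3 := (mem_filter.1 hy1).2.1
        have hx4 := Nat.div_add_mod (l * x) D
        have hy4 := Nat.div_add_mod (l * A.min' h) D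
        rw [hx2] at hx4
        rw [hy2] at hy4
        have h5 : A.min' h ≤ x := A.min'_le x hx
        have h6 : (x - A.min' h) * (M * l) ≤ 2 * D := by
          obtain ⟨z, hz⟩ := Nat.exists_eq_add_of_le h5
          rw [hz] at hx4 hx3 ⊢
          rw [Nat.add_sub_cancel_left]
          set F := l * (A.min' h + z) % D with hF
          set F0 := l * A.min' h % D with hF0
          have h8 : l * z + F0 = F := by
            have : D * t + F = D * t + F0 + l * z := by
              rw [hx4, hy4]; ring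
            omega
          have h9 : 2 * M * F < M * (2 * F0) + 4 * D := by
            have : M * D ≤ M * (2 * F0) := Nat.mul_le_mul_left _ hy3
            omega
          rw [← h8] at h9
          nlinarith
        have h7 : x - A.min' h ≤ 2 * D / (M * l) :=
          (Nat.le_div_iff_mul_le (Nat.mul_pos hM hl)).2 h6
        exact Nat.lt_succ_of_le (Nat.sub_le_iff_le_add'.1 h7)
      refine (card_le_card hsub).trans ?_
      rw [Nat.card_Ico, Nat.add_sub_cancel_left])
  rwa [card_range] at h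

/-- instances with one demand in a given set of values -/
theorem card_coord (D : ℕ) (V : Finset ℕ) (i : Fin 4) :
    ({d : Fin 4 → ℕ | d ∈ inst 4 D ∧ d i ∈ V}).ncard ≤ #V * D ^ 2 := by
  classical
  obtain ⟨k0, t, ht⟩ : ∃ (k0 : Fin 4) (t : Fin 3), k0.succAbove t = i := by
    obtain ⟨k0, hk0⟩ : ∃ k0 : Fin 4, k0 ≠ i := exists_ne i
    obtain ⟨t, ht⟩ := Fin.exists_succAbove_eq hk0.symm
    exact ⟨k0, t, ht⟩
  have h1 : #(Fintype.piFinset fun s : Fin 3 => if s = t then V else range D) = #V * D ^ 2 := by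
    rw [Fintype.card_piFinset]
    rw [← mul_prod_erase _ _ (mem_univ t), if_pos rfl]
    congr 1
    rw [prod_congr rfl (g := fun _ => D) (fun s hs => by
      rw [if_neg (ne_of_mem_erase hs), card_range])]
    rw [prod_const, card_erase_of_mem (mem_univ t), card_univ, Fintype.card_fin]
  rw [← h1, ← Set.ncard_coe_finset]
  apply Set.ncard_le_ncard_of_injOn (fun d : Fin 4 → ℕ => fun s : Fin 3 => d (k0.succAbove s))
  · rintro d ⟨⟨hpos, hsum⟩, hi⟩
    rw [mem_coe, Fintype.mem_piFinset]
    intro s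
    split_ifs with hs
    · rw [hs, ht]
      exact hi
    · rw [mem_range]
      rw [Fin.sum_univ_succAbove _ k0] at hsum
      have h2 : d (k0.succAbove s) ≤ ∑ s, d (k0.succAbove s) :=
        single_le_sum (f := fun s => d (k0.succAbove s)) (fun _ _ => Nat.zero_le _) (mem_univ s)
      have h3 := hpos k0
      omega
  · rintro d ⟨⟨-, hd⟩, -⟩ d' ⟨⟨-, hd'⟩, -⟩ h
    have h2 : ∀ s, d (k0.succAbove s) = d' (k0.succAbove s) := fun s => congrFun h s
    rw [Fin.sum_univ_succAbove _ k0] at hd hd'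
    rw [sum_congr rfl fun i _ => h2 i] at hd
    funext j
    refine Fin.succAboveCases k0 (α := fun j => d j = d' j) ?_ h2 j
    omega

/-- instances for which a digit triple does not appear -/
theorem card_digit (D M J : ℕ) (hM : 0 < M) (hD : 0 < D) (hJ : M ^ J ≤ D) (k0 : Fin 4)
    (c : Fin 3 → ℕ) (hc : ∀ i, c i < M) :
    ({d : Fin 4 → ℕ | d ∈ inst 4 D ∧
      (fun s : Fin 3 => d (k0.succAbove s)) ∈ badSet 3 M c D J}).ncard * (M ^ J) ^ 3 ≤
      (2 * D) ^ 3 * (M ^ 3 - 1) ^ J := by
  classical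
  refine le_trans (Nat.mul_le_mul_right _ ?_) (card_badSet 3 M hM c hc D J hD hJ)
  rw [← Set.ncard_coe_finset]
  apply Set.ncard_le_ncard_of_injOn (fun d : Fin 4 → ℕ => fun s : Fin 3 => d (k0.succAbove s))
  · rintro d ⟨-, hd⟩
    exact hd
  · rintro d ⟨⟨-, hd⟩, -⟩ d' ⟨⟨-, hd'⟩, -⟩ h
    have h2 : ∀ s, d (k0.succAbove s) = d' (k0.succAbove s) := fun s => congrFun h s
    rw [Fin.sum_univ_succAbove _ k0] at hd hd'
    rw [sum_congr rfl fun i _ => h2 i] at hd
    funext j
    refine Fin.succAboveCases k0 (α := fun j => d j = d' j) ?_ h2 j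
    omega

/-- outside the exceptional sets the window condition gives `B^* ≥ 3/4` -/
theorem generic_bad (D N M J : ℕ) (hM : 8 ≤ M) (hD1 : 2 * M ^ J ≤ D) (hD2 : 2 * N ≤ D)
    (d : Fin 4 → ℕ) (hd : d ∈ inst 4 D) (hw : Window d)
    (hE1 : ∀ i, D ≤ N * d i)
    (hE2 : ∀ i, ∀ l, 0 < l → l ≤ N →
      ¬ (D ≤ 2 * (l * d i % D) ∧ 2 * M * (l * d i % D) < M * D + 4 * D))
    (hE3 : ∀ (k0 : Fin 4) (c : Fin 3 → Fin M),
      (fun s : Fin 3 => d (k0.succAbove s)) ∉ badSet 3 M (fun i => (c i : ℕ)) D J) :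
    3 / 4 ≤ Bstar d := by
  obtain ⟨hpos, hsum⟩ := hd
  have hM0 : 0 < M := by omega
  have hD : 0 < D := by
    have : 0 < M ^ J := Nat.pow_pos hM0
    omega
  obtain ⟨l, k0, hl1, hl2, hl3⟩ := hw
  rw [hsum] at hl1 hl2 hl3
  have hl0 : 0 < l := by omega
  have hlN : l ≤ N := by
    have h1 := hE1 k0
    by_contra h2
    push Not at h2
    have h3 : N * d k0 ≤ l * d k0 := Nat.mul_le_mul_right _ h2.le
    nlinarith [hpos k0]
  -- the digits
  have hmargin : ∀ s : Fin 3, M * D + 4 * D ≤ 2 * M * (l * d (k0.succAbove s) % D) := by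
    intro s
    have h1 := hE2 (k0.succAbove s) l hl0 hlN
    have h2 := hl2 (k0.succAbove s) (Fin.succAbove_ne k0 s)
    by_contra h3
    push Not at h3
    exact h1 ⟨h2, h3⟩
  set a : Fin 3 → ℕ := fun s => 3 * M * D - 4 * M * (l * d (k0.succAbove s) % D) with ha
  have ha1 : ∀ s, a s + 8 * D ≤ M * D := by
    intro s
    have h1 := hmargin s
    have h2 : 8 * D ≤ M * D := Nat.mul_le_mul_right _ hM
    have h3 : 4 * M * (l * d (k0.succAbove s) % D) = 2 * (2 * M * (l * d (k0.succAbove s) % D)) := by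
      ring
    have h4 : 3 * M * D = 3 * (M * D) := by ring
    simp only [ha]
    rw [h3, h4]
    omega
  have hcM : ∀ s, a s / (4 * D) + 1 < M := by
    intro s
    have h1 := ha1 s
    have h2 : a s / (4 * D) * (4 * D) ≤ a s := Nat.div_mul_le_self _ _
    by_contra h3
    push Not at h3
    have h4 : M * D ≤ (a s / (4 * D) + 1) * D := Nat.mul_le_mul_right _ h3
    nlinarith
  let c : Fin 3 → Fin M := fun s => ⟨a s / (4 * D) + 1, hcM s⟩
  have hx := hE3 k0 c
  unfold badSet at hx
  rw [mem_filter] at hx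
  push Not at hx
  obtain ⟨j, hj, hjc⟩ := hx (by
    rw [Fintype.mem_piFinset]
    intro s
    rw [mem_range]
    rw [Fin.sum_univ_succAbove _ k0] at hsum
    have h2 : d (k0.succAbove s) ≤ ∑ s, d (k0.succAbove s) :=
      single_le_sum (f := fun s => d (k0.succAbove s)) (fun _ _ => Nat.zero_le _) (mem_univ s)
    have h3 := hpos k0
    omega)
  have hk1 : 1 ≤ M ^ j := Nat.pow_pos hM0
  have hkJ : M ^ j ≤ M ^ J := Nat.pow_le_pow_right hM0 hj.le
  have hy : ∀ s : Fin 3, 4 * (M ^ j * d (k0.succAbove s) % D) ≤ D ∧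
      3 * D ≤ 4 * ((M ^ j * d (k0.succAbove s)) % D + (l * d (k0.succAbove s)) % D) := by
    intro s
    set y := M ^ j * d (k0.succAbove s) % D with hy
    set F := l * d (k0.succAbove s) % D with hF
    have h1 : M * y / D = a s / (4 * D) + 1 := hjc s
    have h2 : (a s / (4 * D) + 1) * D ≤ M * y := by
      rw [← h1]
      exact Nat.div_mul_le_self _ _
    have h3 : M * y < (a s / (4 * D) + 1 + 1) * D := by
      rw [← Nat.div_lt_iff_lt_mul hD, h1]
      exact Nat.lt_succ_self _
    have h4 : a s / (4 * D) * (4 * D) ≤ a s := Nat.div_mul_le_self _ _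
    have h5 : a s < (a s / (4 * D) + 1) * (4 * D) := by
      rw [← Nat.div_lt_iff_lt_mul (by omega)]
      exact Nat.lt_succ_self _
    have h6 := ha1 s
    have h7 : 3 * M * D ≤ a s + 4 * M * F := by
      have h8 : a s = 3 * M * D - 4 * M * F := rfl
      omega
    constructor
    · have h8 : M * (4 * y) ≤ M * D := by nlinarith
      exact Nat.le_of_mul_le_mul_left h8 hM0
    · have h8 : M * (3 * D) ≤ M * (4 * (y + F)) := by nlinarith
      exact Nat.le_of_mul_le_mul_left h8 hM0
  have hex : ∀ i, i ≠ k0 → ∃ s, k0.succAbove s = i := fun i hi => Fin.exists_succAbove_eq hi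
  refine window_bad d hpos D hsum k0 l (M ^ j) hk1 (by omega) hl3 ?_ ?_
  · intro i hi
    obtain ⟨s, rfl⟩ := hex i hi
    exact (hy s).1
  · intro i hi
    obtain ⟨s, rfl⟩ := hex i hi
    exact (hy s).2

end Pool.Agent.H86.BD
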